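import Pool.Agent.LibCell.Torus
set_option autoImplicit false
open Filter Topology Set
open scoped Laplacian InnerProductSpace

namespace Pool.Agent.Results.MP_5fee02_an.NonConvergence

/-- the space `R^n` -/
abbrev E (n : ℕ) : Type := EuclideanSpace ℝ (Fin n)

/-- the integer vector `k`, as a point of `R^n` -/
noncomputable def intVec {n : ℕ} (k : Fin n → ℤ) : E n := WithLp.toLp 2 (fun i => (k i : ℝ))

/-- `v` is a `C^2`, `Z^n`-periodic solution, normalised by `v 0 = 0`, of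
`H(x, Dv) = ε Δv + c`. -/
structure IsViscousCellSolution {n : ℕ} (H : E n → E n → ℝ) (ε c : ℝ) (v : E n → ℝ) : Prop where
  contDiff : ContDiff ℝ 2 v
  periodic : ∀ (x : E n) (k : Fin n → ℤ), v (x + intVec k) = v x
  normalised : v 0 = 0
  equation : ∀ x, H x (gradient v x) = ε * Δ v x + c

/-- Assumption (A1): `min_x (H(x,p)^2 / 2 + D_x H(x,p) . p)` tends to infinity with `|p|`. -/
def A1 {n : ℕ} (H : E n → E n → ℝ) : Prop :=
  Tendsto (fun p : E n => ⨅ x : E n, (1 / 2 * H x p ^ 2 + inner ℝ (gradient (fun y => H y p) x) p))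
    (Bornology.cobounded (E n)) atTop

open Pool.Agent.LibCell in
lemma main (m : ℕ) : ∃ H : E (m+1) → E (m+1) → ℝ,
    (∃ W : E (m+1) → ℝ, ∀ x p, H x p = ‖p‖ ^ 2 - W x) ∧
    ContDiff ℝ (⊤ : ℕ∞) (fun q : E (m+1) × E (m+1) => H q.1 q.2) ∧
    (∀ x p k, H (x + intVec k) p = H x p) ∧
    A1 H ∧
    (∀ ε, 0 < ε → ε < 1 → ∃! s : ℝ × (E (m+1) → ℝ), IsViscousCellSolution H ε s.1 s.2) ∧
    ∀ v : ℝ → E (m+1) → ℝ, (∀ ε, 0 < ε → ε < 1 → ∃ c, IsViscousCellSolution H ε c (v ε)) →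
      (∃ x₀, ∀ l, ¬ Tendsto (fun ε => v ε x₀) (𝓝[>] 0) (𝓝 l)) ∧
      ∀ u, ¬ TendstoUniformly v u (𝓝[>] 0) := by
  obtain ⟨Γ, hΓ, h0, h1, hpos, hneg⟩ := main1D
  set W : E (m+1) → ℝ := fun x => Vf Γ (x 0) with hW
  have conv : ∀ {ε c : ℝ} {v : E (m+1) → ℝ}, IsViscousCellSolution (mech W) ε c v ↔
      IsCellSol (mech W) ε c v := by
    intro ε c v
    exact ⟨fun h => ⟨h.1, h.2, h.3, h.4⟩, fun h => ⟨h.1, h.2, h.3, h.4⟩⟩
  have hVC : ContDiff ℝ (⊤ : ℕ∞) (Vf Γ) := Vf_contDiff hΓ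
  have hVd : Differentiable ℝ (Vf Γ) := hVC.differentiable (by simp)
  have hV'c : Continuous (deriv (Vf Γ)) := hVC.continuous_deriv (by exact_mod_cast le_top)
  obtain ⟨xm, hxm⟩ := exists_max (f := fun x => |deriv (Vf Γ) x|) hV'c.abs (fun x => by
    have : (fun y => Vf Γ (y + 1)) = Vf Γ := funext Vf_per
    have e : deriv (Vf Γ) (x + 1) = deriv (Vf Γ) x := by
      conv_rhs => rw [← this]
      rw [deriv_comp_add_const]
    rw [e])
  set K : ℝ := |deriv (Vf Γ) xm| with hK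
  have hK0 : 0 ≤ K := abs_nonneg _
  refine ⟨mech W, ⟨W, fun x p => rfl⟩, ?_, ?_, ?_, ?_, ?_⟩
  · unfold mech
    exact (contDiff_snd.norm_sq ℝ).sub (hVC.comp ((c0 m).contDiff.comp contDiff_fst))
  · intro x p k
    unfold mech
    have hp : Function.Periodic (Vf Γ) 1 := Vf_per
    have e : (x + intVec k : E (m+1)) 0 = x 0 + k 0 := by simp [intVec]
    have := hp.int_mul (k 0) (x 0)
    rw [mul_one] at this
    simp only [hW, e, this]
  · -- (A1)
    unfold A1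
    rw [tendsto_atTop]
    intro M
    have hev : ∀ᶠ p : E (m+1) in Bornology.cobounded (E (m+1)), max (max 4 (K + 1)) M ≤ ‖p‖ :=
      tendsto_norm_cobounded_atTop.eventually_ge_atTop _
    filter_upwards [hev] with p hp
    have hp4 : 4 ≤ ‖p‖ := (le_max_left _ _).trans ((le_max_left _ _).trans hp)
    have hpK : K + 1 ≤ ‖p‖ := (le_max_right _ _).trans ((le_max_left _ _).trans hp)
    have hpM : M ≤ ‖p‖ := (le_max_right _ _).trans hp
    apply le_ciInf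
    intro x
    have hD : HasFDerivAt (fun y : E (m+1) => mech W y p) (-(deriv (Vf Γ) (x 0) • c0 m)) x := by
      have hdd : HasDerivAt (Vf Γ) (deriv (Vf Γ) (x 0)) (x 0) := (hVd (x 0)).hasDerivAt
      have h2 : HasFDerivAt (Vf Γ ∘ (c0 m)) (deriv (Vf Γ) (x 0) • c0 m) x :=
        hdd.comp_hasFDerivAt x (c0 m).hasFDerivAt
      exact h2.const_sub (‖p‖ ^ 2)
    have hin : inner ℝ (gradient (fun y => mech W y p) x) p = -(deriv (Vf Γ) (x 0) * p 0) := by
      unfold gradient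
      rw [InnerProductSpace.toDual_symm_apply, hD.fderiv]
      rfl
    rw [hin]
    have hp0 : |p 0| ≤ ‖p‖ := by
      have := PiLp.norm_apply_le p 0
      simpa using this
    have hb : |deriv (Vf Γ) (x 0) * p 0| ≤ K * ‖p‖ := by
      rw [abs_mul]
      exact mul_le_mul (hxm (x 0)) hp0 (abs_nonneg _) hK0
    have hb2 := (abs_le.mp hb).2
    have hH : mech W x p = ‖p‖ ^ 2 - Vf Γ (x 0) := rfl
    rw [hH]
    have v0 := Vf_nonneg (Γ := Γ) (x 0)
    have v4 := Vf_le4 h0 h1 (x 0)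
    set r := ‖p‖ with hr
    have r2 : 16 ≤ r ^ 2 := by nlinarith
    have a1 : 3 / 4 * r ^ 2 ≤ r ^ 2 - Vf Γ (x 0) := by nlinarith
    have a2 : (3 / 4 * r ^ 2) ^ 2 ≤ (r ^ 2 - Vf Γ (x 0)) ^ 2 :=
      pow_le_pow_left₀ (by positivity) a1 2
    have a3 : (K + 1) * r ≤ r ^ 2 := by nlinarith
    have a4 : r ^ 2 ≤ 1 / 2 * (3 / 4 * r ^ 2) ^ 2 := by nlinarith
    nlinarith
  · intro ε hε _
    obtain ⟨c, v, hv, hv0⟩ := exists_solf hε hΓ.continuous h0 h1
    refine ⟨(c, fun x => v (x 0)), conv.mpr (hv.lift hv0 m), ?_⟩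
    rintro ⟨c', v'⟩ h'
    have := (conv.mp h').uniq (hv.lift hv0 m) hε
    exact Prod.ext this.1 this.2
  · intro v hv
    have key : ∃ x₀, ∀ l, ¬ Tendsto (fun ε => v ε x₀) (𝓝[>] 0) (𝓝 l) := by
      refine ⟨EuclideanSpace.single 0 (1/2), fun l hl => ?_⟩
      have hev : ∀ᶠ ε in 𝓝[>] (0:ℝ), |v ε (EuclideanSpace.single 0 (1/2)) - l| < 1/20 := by
        have := (Metric.tendsto_nhds.mp hl) (1/20) (by norm_num)
        simpa [Real.dist_eq] using this
      rw [eventually_nhdsWithin_iff] at hev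
      obtain ⟨δ, hδ, hball⟩ := Metric.eventually_nhds_iff.mp hev
      obtain ⟨n, hn⟩ := exists_nat_one_div_lt (lt_min hδ one_pos)
      have hnδ : 1 / ((n:ℝ) + 1) < δ := hn.trans_le (min_le_left _ _)
      have hn1 : 1 / ((n:ℝ) + 1) < 1 := hn.trans_le (min_le_right _ _)
      have hval : ∀ ε, 0 < ε → ε < 1 / ((n:ℝ) + 1) → ∀ c w, IsSol (Vf Γ) ε c w → w 0 = 0 →
          v ε (EuclideanSpace.single 0 (1/2)) = w (1/2) := by
        intro ε hε hεn c w hw hw0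
        obtain ⟨c', hc'⟩ := hv ε hε (hεn.trans hn1)
        have := ((conv.mp hc').uniq (hw.lift hw0 m) hε).2
        rw [this]
        simp
      obtain ⟨ε1, e1, e1n, c1, w1, hw1, hw10, hw1h⟩ := hpos n
      obtain ⟨ε2, e2, e2n, c2, w2, hw2, hw20, hw2h⟩ := hneg n
      have b1 := hball (y := ε1) (by
        rw [Real.dist_eq, sub_zero, abs_of_pos e1]; exact e1n.trans hnδ) e1
      have b2 := hball (y := ε2) (by
        rw [Real.dist_eq, sub_zero, abs_of_pos e2]; exact e2n.trans hnδ) e2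
      rw [hval ε1 e1 e1n c1 w1 hw1 hw10] at b1
      rw [hval ε2 e2 e2n c2 w2 hw2 hw20] at b2
      have b1' := (abs_lt.mp b1).2
      have b2' := (abs_lt.mp b2).1
      linarith
    refine ⟨key, fun u hu => ?_⟩
    obtain ⟨x₀, hx₀⟩ := key
    exact hx₀ _ (hu.tendsto_at x₀)

/-- Negative answer to the selection question, in every dimension and already for a smooth
mechanical (uniformly convex) Hamiltonian `|p|^2 - W(x)`. -/
theorem result : ∀ n : ℕ, 1 ≤ n → ∃ H : E n → E n → ℝ,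
    (∃ W : E n → ℝ, ∀ x p, H x p = ‖p‖ ^ 2 - W x) ∧
    ContDiff ℝ (⊤ : ℕ∞) (fun q : E n × E n => H q.1 q.2) ∧
    (∀ x p k, H (x + intVec k) p = H x p) ∧
    A1 H ∧
    (∀ ε, 0 < ε → ε < 1 → ∃! s : ℝ × (E n → ℝ), IsViscousCellSolution H ε s.1 s.2) ∧
    ∀ v : ℝ → E n → ℝ, (∀ ε, 0 < ε → ε < 1 → ∃ c, IsViscousCellSolution H ε c (v ε)) →
      (∃ x₀, ∀ l, ¬ Tendsto (fun ε => v ε x₀) (𝓝[>] 0) (𝓝 l)) ∧
      ∀ u, ¬ TendstoUniformly v u (𝓝[>] 0) := by
  intro n hn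
  obtain ⟨m, rfl⟩ : ∃ m, n = m + 1 := ⟨n - 1, by omega⟩
  exact main m

end Pool.Agent.Results.MP_5fee02_an.NonConvergence
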